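import Pool.Agent.Helper48.RT.E2c
import Pool.Agent.Helper85.RT.B
import Pool.Agent.Helper58.RT.B2
import Pool.Agent.Helper47.RT.Q3
import Pool.Agent.Helper77.RT.Num

/-!
# Project RT, block E2: the cone, from the good sectors
-/

open MeasureTheory Real Set Filter Topology

set_option autoImplicit false

namespace Pool.Agent.Helper60.RT

open Pool.Agent.Helper22.AE
open Pool.Agent.Helper92.GC (dt tp Tq uu tt arc dd sqa m6)
open Pool.Agent.Helper92.DT (m12 IsMul12)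
open Pool.Agent.Helper60.LT (Fr Tf xf yf df vf fr ac co Cut BB PP)

/-- E2: the cone, from the good sectors -/
theorem cone_bd {e : Fr} (he : 0 < df e) {η B : ℝ} (hη : 0 < η) (hB : 1 ≤ B)
    (hl : ∀ η ε₀ : ℝ, 0 < η → 0 < ε₀ → ∃ (M : ℕ) (C : ℝ), 2 ≤ M ∧ 1 ≤ C ∧
      ∀ (X σ : ℝ) (N m₀ m₂ r₀ : ℕ), Par e M ε₀ X σ N m₀ m₂ r₀ → RI e B X (arc 0 (cn N) (M ^ m₀) r₀) ≤ ENNReal.ofReal (C * X ^ η * FR X N)) :
    ∃ C : ℝ, 1 ≤ C ∧ ∀ (X : ℝ) (N : ℕ), 1 ≤ X → 1 ≤ N → X ^ (1 / 10 : ℝ) ≤ N → (N : ℝ) ≤ X ^ (4 / 9 + 1 / 1000 : ℝ) →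
      RI e B X (cn N) ≤ ENNReal.ofReal (C * X ^ η * FR X N) :=
  Pool.Agent.Helper48.RT.cone_bd_of he hη (fun X S g P hP => RI_fib e B X S g P hP)
    (fun _ hη' => sec_bd he hη' hB)
    (fun b hb => by
      obtain ⟨C, hC, h⟩ := num_bds hb
      exact ⟨C, hC, fun X N w h1 h2 h3 h4 h5 h6 h7 => (h X N w 1 h1 h2 h3 one_pos h4 h5 h6 h7).2.1⟩)
    (fun N hN => (cn_cone hN).2) hl

end Pool.Agent.Helper60.RT
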