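import Pool.Agent.Helper60.RT.Defs2

/-!
# Project RT, block E2: the bad arcs, and the decomposition of the cone into good arcs
-/

open MeasureTheory Real Set Filter Topology

set_option autoImplicit false

namespace Pool.Agent.Helper48.RT

open Pool.Agent.Helper22.AE
open Pool.Agent.Helper92.GC (dt tp Tq uu tt arc dd sqa m6)
open Pool.Agent.Helper60.LT (Fr Tf xf yf df vf fr ac co Cut BB PP)
open Pool.Agent.Helper60.RT

theorem tt_zero (k : ℤ × ℤ) : tt 0 k = (k.2 : ℝ) / k.1 := by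
  unfold tt uu
  rw [zero_mul, add_zero]

/-- the product `l1 l2` is Lipschitz -/
theorem lip_g (e : Fr) : ∃ Λ : ℝ, 1 ≤ Λ ∧ ∀ t t' : ℝ, |t| ≤ 7 → |t'| ≤ 7 →
    |l1 e t * l2 e t - l1 e t' * l2 e t'| ≤ Λ * |t - t'| := by
  obtain ⟨a, ha⟩ : ∃ a, a = |e.1.1| + |e.1.2| + |e.2.1| + |e.2.2| := ⟨_, rfl⟩
  have h1 : |e.1.1| ≤ a := by rw [ha]; linarith [abs_nonneg e.1.1, abs_nonneg e.1.2, abs_nonneg e.2.1, abs_nonneg e.2.2]
  have h2 : |e.1.2| ≤ a := by rw [ha]; linarith [abs_nonneg e.1.1, abs_nonneg e.1.2, abs_nonneg e.2.1, abs_nonneg e.2.2]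
  have h3 : |e.2.1| ≤ a := by rw [ha]; linarith [abs_nonneg e.1.1, abs_nonneg e.1.2, abs_nonneg e.2.1, abs_nonneg e.2.2]
  have h4 : |e.2.2| ≤ a := by rw [ha]; linarith [abs_nonneg e.1.1, abs_nonneg e.1.2, abs_nonneg e.2.1, abs_nonneg e.2.2]
  have ha0 : 0 ≤ a := (abs_nonneg _).trans h1
  refine ⟨16 * a ^ 2 + 1, by nlinarith, fun t t' ht ht' => ?_⟩
  have e1 : l1 e t * l2 e t - l1 e t' * l2 e t' =
      (e.1.1 * e.2.2 + e.1.2 * e.2.1 + e.2.1 * e.2.2 * (t + t')) * (t - t') := by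
    unfold l1 l2
    ring
  rw [e1, abs_mul]
  refine mul_le_mul_of_nonneg_right ?_ (abs_nonneg _)
  have h5 : |t + t'| ≤ 14 := (abs_add_le _ _).trans (by linarith)
  have b1 : |e.1.1 * e.2.2| ≤ a ^ 2 := by
    rw [abs_mul, sq]
    exact mul_le_mul h1 h4 (abs_nonneg _) ha0
  have b2 : |e.1.2 * e.2.1| ≤ a ^ 2 := by
    rw [abs_mul, sq]
    exact mul_le_mul h2 h3 (abs_nonneg _) ha0
  have b3 : |e.2.1 * e.2.2| ≤ a ^ 2 := by
    rw [abs_mul, sq]
    exact mul_le_mul h3 h4 (abs_nonneg _) ha0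
  have b4 : |e.2.1 * e.2.2 * (t + t')| ≤ a ^ 2 * 14 := by
    rw [abs_mul]
    exact mul_le_mul b3 h5 (abs_nonneg _) (by positivity)
  have h6 := abs_add_le (e.1.1 * e.2.2 + e.1.2 * e.2.1) (e.2.1 * e.2.2 * (t + t'))
  have h7 := abs_add_le (e.1.1 * e.2.2) (e.1.2 * e.2.1)
  linarith

/-- `l1` and `l2` are not both small -/
theorem big_l {e : Fr} (he : 0 < df e) : ∃ c : ℝ, 0 < c ∧ ∀ t : ℝ, c ≤ |l1 e t| ∨ c ≤ |l2 e t| := by
  obtain ⟨a, ha⟩ : ∃ a, a = |e.2.1| + |e.2.2| + 1 := ⟨_, rfl⟩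
  have ha0 : 0 < a := by rw [ha]; positivity
  refine ⟨df e / (2 * a), by positivity, fun t => ?_⟩
  by_contra hcon
  rw [not_or, not_le, not_le] at hcon
  obtain ⟨h1, h2⟩ := hcon
  have e1 : df e = l1 e t * e.2.2 - l2 e t * e.2.1 := by
    unfold df l1 l2
    ring
  have h3 : df e ≤ |l1 e t| * |e.2.2| + |l2 e t| * |e.2.1| := by
    rw [← abs_mul, ← abs_mul]
    have := le_abs_self (l1 e t * e.2.2)
    have := neg_abs_le (l2 e t * e.2.1)
    linarith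
  have h4 : |l1 e t| * |e.2.2| ≤ df e / (2 * a) * |e.2.2| :=
    mul_le_mul_of_nonneg_right h1.le (abs_nonneg _)
  have h5 : |l2 e t| * |e.2.1| ≤ df e / (2 * a) * |e.2.1| :=
    mul_le_mul_of_nonneg_right h2.le (abs_nonneg _)
  have h6 : df e / (2 * a) * a = df e / 2 := by field_simp
  have h7 : df e / (2 * a) * |e.2.2| + df e / (2 * a) * |e.2.1| ≤ df e / (2 * a) * a := by
    rw [← mul_add]
    refine mul_le_mul_of_nonneg_left ?_ (by positivity)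
    rw [ha]
    linarith
  linarith

/-- natural numbers in a short interval -/
theorem card_near (S : Finset ℕ) (ρ L : ℝ) (hL : 0 ≤ L) (h : ∀ r ∈ S, |(r : ℝ) - ρ| < L) :
    (S.card : ℝ) ≤ 2 * L + 1 := by
  classical
  have h1 : (S.map ⟨fun r : ℕ => (r : ℤ), Nat.cast_injective⟩) ⊆ Finset.Icc ⌈ρ - L⌉ ⌊ρ + L⌋ := by
    intro z hz
    obtain ⟨r, hr, rfl⟩ := Finset.mem_map.1 hz
    have h2 := abs_lt.1 (h r hr)
    rw [Finset.mem_Icc]
    constructor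
    · refine Int.ceil_le.2 ?_
      change ρ - L ≤ ((r : ℤ) : ℝ)
      push_cast
      linarith [h2.1]
    · refine Int.le_floor.2 ?_
      change ((r : ℤ) : ℝ) ≤ ρ + L
      push_cast
      linarith [h2.2]
  have h2 := Finset.card_le_card h1
  rw [Finset.card_map, Int.card_Icc] at h2
  rcases S.eq_empty_or_nonempty with rfl | ⟨r, hr⟩
  · simp
    linarith
  have h3 : ((⌊ρ + L⌋ + 1 - ⌈ρ - L⌉).toNat : ℝ) ≤ 2 * L + 1 := by
    have h4 : 0 ≤ ⌊ρ + L⌋ + 1 - ⌈ρ - L⌉ := by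
      have h5 : ((r : ℤ)) ∈ Finset.Icc ⌈ρ - L⌉ ⌊ρ + L⌋ :=
        h1 (Finset.mem_map.2 ⟨r, hr, rfl⟩)
      rw [Finset.mem_Icc] at h5
      omega
    have h6 : (((⌊ρ + L⌋ + 1 - ⌈ρ - L⌉).toNat : ℤ) : ℝ) = ((⌊ρ + L⌋ + 1 - ⌈ρ - L⌉ : ℤ) : ℝ) := by
      rw [Int.toNat_of_nonneg h4]
    push_cast at h6
    rw [h6]
    have h7 := Int.floor_le (ρ + L)
    have h8 := Int.le_ceil (ρ - L)
    linarith
  exact (by exact_mod_cast h2 : (S.card : ℝ) ≤ ((⌊ρ + L⌋ + 1 - ⌈ρ - L⌉).toNat : ℝ)).trans h3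

open Classical in
/-- the arcs near a zero of an affine function -/
theorem count_aff {a b : ℝ} (hab : a ≠ 0 ∨ b ≠ 0) : ∃ C : ℝ, 1 ≤ C ∧ ∀ (N₁ : ℕ) (κ : ℝ), 1 ≤ N₁ →
    1 ≤ κ → (((Finset.range N₁).filter (fun r => |a + ctr N₁ r * b| * N₁ < κ)).card : ℝ) ≤ C * κ := by
  rcases eq_or_ne b 0 with rfl | hb
  · have ha : a ≠ 0 := hab.resolve_right (by simp)
    have ha' : 0 < |a| := abs_pos.2 ha
    refine ⟨1 / |a| + 1, by have := (div_pos one_pos ha').le; linarith, fun N₁ κ hN hκ => ?_⟩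
    rcases (((Finset.range N₁).filter (fun r => |a + ctr N₁ r * 0| * N₁ < κ))).eq_empty_or_nonempty with h | ⟨r, hr⟩
    · rw [h]
      simp
      positivity
    · have h1 := (Finset.mem_filter.1 hr).2
      rw [mul_zero, add_zero] at h1
      have h2 : (N₁ : ℝ) < κ / |a| := by
        rw [lt_div_iff₀ ha', mul_comm]
        exact h1
      have h3 : ((((Finset.range N₁).filter (fun r => |a + ctr N₁ r * 0| * N₁ < κ)).card : ℕ) : ℝ) ≤ N₁ := by
        have := Finset.card_filter_le (Finset.range N₁) (fun r => |a + ctr N₁ r * 0| * N₁ < κ)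
        rw [Finset.card_range] at this
        exact_mod_cast this
      have h4 : κ / |a| = 1 / |a| * κ := by ring
      rw [h4] at h2
      nlinarith
  · have hb' : 0 < |b| := abs_pos.2 hb
    refine ⟨2 / (12 * |b|) + 1, by have := (div_pos two_pos (mul_pos (by norm_num : (0 : ℝ) < 12) hb')).le; linarith,
      fun N₁ κ hN hκ => ?_⟩
    have hN' : (0 : ℝ) < N₁ := by exact_mod_cast hN
    refine (card_near _ (-((a - 6 * b) * N₁ / (12 * b)) - 1 / 2) (κ / (12 * |b|)) (by positivity) ?_).trans ?_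
    · intro r hr
      have h1 := (Finset.mem_filter.1 hr).2
      have e1 : |a + ctr N₁ r * b| * N₁ = |(r : ℝ) - (-((a - 6 * b) * N₁ / (12 * b)) - 1 / 2)| * (12 * |b|) := by
        have e2 : a + ctr N₁ r * b = ((r : ℝ) - (-((a - 6 * b) * N₁ / (12 * b)) - 1 / 2)) * (12 * b) / N₁ := by
          unfold ctr
          field_simp
          ring
        rw [e2, abs_div, abs_mul, abs_mul, abs_of_pos hN', abs_of_pos (by norm_num : (0 : ℝ) < 12)]
        field_simp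
      rw [e1] at h1
      rw [lt_div_iff₀ (by positivity)]
      exact h1
    · have e3 : 2 * (κ / (12 * |b|)) = 2 / (12 * |b|) * κ := by ring
      rw [e3]
      nlinarith

open Classical in
/-- the bad arcs -/
theorem count_bad {e : Fr} (he : 0 < df e) : ∃ C : ℝ, 1 ≤ C ∧ ∀ (N₁ : ℕ) (κ : ℝ), 1 ≤ N₁ → 1 ≤ κ →
    (((Finset.range N₁).filter (fun r => |l1 e (ctr N₁ r) * l2 e (ctr N₁ r)| * N₁ < κ)).card : ℝ) ≤ C * κ := by
  obtain ⟨c, hc, hbig⟩ := big_l he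
  have hne1 : e.1.1 ≠ 0 ∨ e.2.1 ≠ 0 := by
    by_contra h
    rw [not_or, not_not, not_not] at h
    unfold df at he
    rw [h.1, h.2] at he
    simp at he
  have hne2 : e.1.2 ≠ 0 ∨ e.2.2 ≠ 0 := by
    by_contra h
    rw [not_or, not_not, not_not] at h
    unfold df at he
    rw [h.1, h.2] at he
    simp at he
  obtain ⟨C₁, hC₁, h1⟩ := count_aff hne1
  obtain ⟨C₂, hC₂, h2⟩ := count_aff hne2
  obtain ⟨c', hc', hc1, hcc⟩ : ∃ c' : ℝ, 0 < c' ∧ c' ≤ 1 ∧ c' ≤ c := ⟨min c 1, by positivity, min_le_right _ _, min_le_left _ _⟩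
  refine ⟨(C₁ + C₂) / c', ?_, fun N₁ κ hN hκ => ?_⟩
  · rw [le_div_iff₀ hc']
    linarith
  have hN' : (0 : ℝ) < N₁ := by exact_mod_cast hN
  have hκ' : 1 ≤ κ / c' := by
    rw [le_div_iff₀ hc']
    linarith
  have hsub : (Finset.range N₁).filter (fun r => |l1 e (ctr N₁ r) * l2 e (ctr N₁ r)| * N₁ < κ) ⊆
      (Finset.range N₁).filter (fun r => |e.1.1 + ctr N₁ r * e.2.1| * N₁ < κ / c') ∪
      (Finset.range N₁).filter (fun r => |e.1.2 + ctr N₁ r * e.2.2| * N₁ < κ / c') := by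
    intro r hr
    rw [Finset.mem_filter] at hr
    obtain ⟨hr1, hr2⟩ := hr
    rw [abs_mul] at hr2
    rw [Finset.mem_union, Finset.mem_filter, Finset.mem_filter]
    have e1 : |e.1.1 + ctr N₁ r * e.2.1| = |l1 e (ctr N₁ r)| := rfl
    have e2 : |e.1.2 + ctr N₁ r * e.2.2| = |l2 e (ctr N₁ r)| := rfl
    rw [e1, e2]
    rcases hbig (ctr N₁ r) with h | h
    · right
      refine ⟨hr1, ?_⟩
      rw [lt_div_iff₀ hc']
      have h3 : |l2 e (ctr N₁ r)| * N₁ * c' ≤ |l1 e (ctr N₁ r)| * |l2 e (ctr N₁ r)| * N₁ := by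
        have h4 : c' * (|l2 e (ctr N₁ r)| * N₁) ≤ |l1 e (ctr N₁ r)| * (|l2 e (ctr N₁ r)| * N₁) :=
          mul_le_mul_of_nonneg_right (hcc.trans h) (by positivity)
        linarith
      exact h3.trans_lt hr2
    · left
      refine ⟨hr1, ?_⟩
      rw [lt_div_iff₀ hc']
      have h3 : |l1 e (ctr N₁ r)| * N₁ * c' ≤ |l1 e (ctr N₁ r)| * |l2 e (ctr N₁ r)| * N₁ := by
        have h4 : c' * (|l1 e (ctr N₁ r)| * N₁) ≤ |l2 e (ctr N₁ r)| * (|l1 e (ctr N₁ r)| * N₁) :=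
          mul_le_mul_of_nonneg_right (hcc.trans h) (by positivity)
        linarith
      exact h3.trans_lt hr2
  have h3 := (Finset.card_le_card hsub).trans (Finset.card_union_le _ _)
  have h4 := h1 N₁ (κ / c') hN hκ'
  have h5 := h2 N₁ (κ / c') hN hκ'
  have h6 : (((Finset.range N₁).filter (fun r => |l1 e (ctr N₁ r) * l2 e (ctr N₁ r)| * N₁ < κ)).card : ℝ) ≤
      (((Finset.range N₁).filter (fun r => |e.1.1 + ctr N₁ r * e.2.1| * N₁ < κ / c')).card : ℝ) +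
      (((Finset.range N₁).filter (fun r => |e.1.2 + ctr N₁ r * e.2.2| * N₁ < κ / c')).card : ℝ) := by
    exact_mod_cast h3
  have e3 : (C₁ + C₂) / c' * κ = C₁ * (κ / c') + C₂ * (κ / c') := by ring
  rw [e3]
  linarith

end Pool.Agent.Helper48.RT
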