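import Pool.Agent.Helper48.RT.E2a

/-!
# Project RT, block E2: the level of the good arc of a frequency
-/

open MeasureTheory Real Set Filter Topology

set_option autoImplicit false

namespace Pool.Agent.Helper48.RT

open Pool.Agent.Helper22.AE
open Pool.Agent.Helper92.GC (dt tp Tq uu tt arc dd sqa m6)
open Pool.Agent.Helper60.LT (Fr Tf xf yf df vf fr ac co Cut BB PP)
open Pool.Agent.Helper60.RT

theorem mem_arc48 {S : Finset (ℤ × ℤ)} {N j : ℕ} {k : ℤ × ℤ} :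
    k ∈ arc 0 S N j ↔ k ∈ S ∧ ⌊(N : ℝ) * ((tt 0 k + 6) / 12)⌋₊ = j := by
  classical
  unfold arc
  rw [Finset.mem_filter]

/-- the number of the arc of level `m` -/
noncomputable def rr (M : ℕ) (k : ℤ × ℤ) (m : ℕ) : ℕ := ⌊((M ^ m : ℕ) : ℝ) * ((tt 0 k + 6) / 12)⌋₊

theorem rr_div {M : ℕ} (hM : 1 ≤ M) (k : ℤ × ℤ) {m' m : ℕ} (h : m' ≤ m) :
    rr M k m' = rr M k m / M ^ (m - m') := by
  unfold rr
  rw [← Nat.floor_div_natCast]
  congr 1
  have h1 : (((M ^ (m - m') : ℕ)) : ℝ) ≠ 0 := by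
    have : 0 < M ^ (m - m') := Nat.pow_pos (by omega)
    exact_mod_cast this.ne'
  have h2 : ((M ^ m : ℕ) : ℝ) = ((M ^ m' : ℕ) : ℝ) * ((M ^ (m - m') : ℕ) : ℝ) := by
    rw [← Nat.cast_mul, ← pow_add, Nat.add_sub_cancel' h]
  rw [h2]
  field_simp

/-- the centre of the arc -/
theorem near48 {N₁ r : ℕ} (hN : 1 ≤ N₁) {k : ℤ × ℤ} (hk : |tt 0 k| ≤ 1)
    (hr : ⌊(N₁ : ℝ) * ((tt 0 k + 6) / 12)⌋₊ = r) : |tt 0 k - ctr N₁ r| ≤ 6 / N₁ ∧ r < N₁ := by
  have hN' : (0 : ℝ) < N₁ := by exact_mod_cast hN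
  have h1 := abs_le.1 hk
  have h2 : 0 ≤ (N₁ : ℝ) * ((tt 0 k + 6) / 12) := by
    refine mul_nonneg hN'.le ?_
    linarith [h1.1]
  have h3 := Nat.floor_le h2
  have h4 := Nat.lt_floor_add_one ((N₁ : ℝ) * ((tt 0 k + 6) / 12))
  rw [hr] at h3 h4
  constructor
  · have e1 : tt 0 k - ctr N₁ r = (12 / N₁) * ((N₁ : ℝ) * ((tt 0 k + 6) / 12) - (r : ℝ) - 1 / 2) := by
      unfold ctr
      field_simp
      ring
    rw [e1, abs_mul, abs_of_pos (by positivity : (0 : ℝ) < 12 / N₁)]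
    have h5 : |(N₁ : ℝ) * ((tt 0 k + 6) / 12) - (r : ℝ) - 1 / 2| ≤ 1 / 2 := by
      rw [abs_le]
      constructor
      · linarith
      · linarith
    calc 12 / (N₁ : ℝ) * |(N₁ : ℝ) * ((tt 0 k + 6) / 12) - (r : ℝ) - 1 / 2| ≤ 12 / (N₁ : ℝ) * (1 / 2) :=
          mul_le_mul_of_nonneg_left h5 (by positivity)
      _ = 6 / N₁ := by ring
  · have h6 : (r : ℝ) < N₁ := by
      refine h3.trans_lt ?_
      have : (tt 0 k + 6) / 12 < 1 := by linarith [h1.2]
      calc (N₁ : ℝ) * ((tt 0 k + 6) / 12) < N₁ * 1 := mul_lt_mul_of_pos_left this hN'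
        _ = N₁ := mul_one _
    exact_mod_cast h6

section

variable (e : Fr) (M : ℕ) (κ : ℝ) (m₂ : ℕ)

/-- good arcs: the distance to the bad slopes is at least `κ / M ^ m` -/
def GG (m r : ℕ) : Prop := κ ≤ |l1 e (ctr (M ^ m) r) * l2 e (ctr (M ^ m) r)| * ((M ^ m : ℕ) : ℝ)

open Classical in
/-- the level of the first good arc, or `m₂` -/
noncomputable def lev (k : ℤ × ℤ) : ℕ :=
  Nat.find (⟨m₂, Or.inl rfl⟩ : ∃ m, m = m₂ ∨ GG e M κ m (rr M k m))

theorem lev_spec (k : ℤ × ℤ) : lev e M κ m₂ k = m₂ ∨ GG e M κ (lev e M κ m₂ k) (rr M k (lev e M κ m₂ k)) := by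
  classical
  exact Nat.find_spec (⟨m₂, Or.inl rfl⟩ : ∃ m, m = m₂ ∨ GG e M κ m (rr M k m))

theorem lev_le (k : ℤ × ℤ) : lev e M κ m₂ k ≤ m₂ := by
  classical
  exact Nat.find_min' (⟨m₂, Or.inl rfl⟩ : ∃ m, m = m₂ ∨ GG e M κ m (rr M k m)) (Or.inl rfl)

theorem lev_min (k : ℤ × ℤ) {m : ℕ} (hm : m < lev e M κ m₂ k) : ¬ GG e M κ m (rr M k m) := by
  classical
  intro h
  exact Nat.find_min (⟨m₂, Or.inl rfl⟩ : ∃ m, m = m₂ ∨ GG e M κ m (rr M k m)) hm (Or.inr h)

/-- the level depends only on the arc -/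
theorem lev_eq {M : ℕ} (hM : 1 ≤ M) {k k' : ℤ × ℤ} (h : rr M k (lev e M κ m₂ k) = rr M k' (lev e M κ m₂ k)) :
    lev e M κ m₂ k' = lev e M κ m₂ k := by
  classical
  obtain ⟨m, hm⟩ : ∃ m, m = lev e M κ m₂ k := ⟨_, rfl⟩
  rw [← hm] at h ⊢
  have hanc : ∀ m' ≤ m, rr M k m' = rr M k' m' := by
    intro m' hm'
    rw [rr_div hM k hm', rr_div hM k' hm', h]
  have h1 : lev e M κ m₂ k' ≤ m := by
    refine Nat.find_min' (⟨m₂, Or.inl rfl⟩ : ∃ m, m = m₂ ∨ GG e M κ m (rr M k' m)) ?_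
    rw [← hanc m le_rfl, hm]
    exact lev_spec e M κ m₂ k
  refine le_antisymm h1 ?_
  by_contra hlt
  rw [not_le] at hlt
  rcases lev_spec e M κ m₂ k' with h2 | h2
  · have := lev_le e M κ m₂ k
    omega
  · rw [← hanc _ hlt.le] at h2
    exact lev_min e M κ m₂ k (by rw [← hm]; exact hlt) h2

open Classical in
/-- the arcs of level `m` which occur -/
noncomputable def Rm : ℕ → Finset ℕ
  | 0 => Finset.range 1
  | m + 1 => (Finset.range (M ^ (m + 1))).filter (fun r => ¬ GG e M κ m (r / M))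

open Classical in
/-- the pairs -/
noncomputable def PP48 : Finset (ℕ × ℕ) :=
  (Finset.range (m₂ + 1)).biUnion (fun m => (Rm e M κ m).image (fun r => (m, r)))

theorem mem_PP {M : ℕ} (hM : 1 ≤ M) {k : ℤ × ℤ} (hk : |tt 0 k| ≤ 1) :
    (lev e M κ m₂ k, rr M k (lev e M κ m₂ k)) ∈ PP48 e M κ m₂ := by
  classical
  unfold PP48
  rw [Finset.mem_biUnion]
  refine ⟨lev e M κ m₂ k, Finset.mem_range.2 (Nat.lt_succ_of_le (lev_le e M κ m₂ k)), ?_⟩
  rw [Finset.mem_image]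
  refine ⟨rr M k (lev e M κ m₂ k), ?_, rfl⟩
  obtain ⟨m, hm⟩ : ∃ m, m = lev e M κ m₂ k := ⟨_, rfl⟩
  have hlt := fun {m' : ℕ} (h : m' < m) => lev_min e M κ m₂ k (m := m') (by rw [← hm]; exact h)
  rw [← hm]
  have hpos : 1 ≤ M ^ m := Nat.pow_pos (by omega)
  have hr : rr M k m < M ^ m := (near48 (r := rr M k m) hpos hk rfl).2
  cases m with
  | zero =>
    rw [pow_zero] at hr
    exact Finset.mem_range.2 hr
  | succ m =>
    change rr M k (m + 1) ∈ (Finset.range (M ^ (m + 1))).filter (fun r => ¬ GG e M κ m (r / M))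
    rw [Finset.mem_filter, Finset.mem_range]
    refine ⟨hr, ?_⟩
    have h1 : rr M k m = rr M k (m + 1) / M := by
      have h2 := rr_div hM k (Nat.le_succ m)
      rw [Nat.succ_sub (le_refl m), Nat.sub_self, pow_one] at h2
      exact h2
    rw [← h1]
    exact hlt (Nat.lt_succ_self m)

/-- the number of arcs -/
theorem card_PP {M : ℕ} (hM : 1 ≤ M) {C : ℝ} (hC : 0 ≤ C)
    (hcount : ∀ N₁ : ℕ, 1 ≤ N₁ → ∀ S : Finset ℕ, (∀ r ∈ S, r < N₁ ∧ |l1 e (ctr N₁ r) * l2 e (ctr N₁ r)| * N₁ < κ) →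
      (S.card : ℝ) ≤ C) : ((PP48 e M κ m₂).card : ℝ) ≤ 1 + m₂ * (M * C) := by
  classical
  have hR : ∀ m, ((Rm e M κ m).card : ℝ) ≤ (if m = 0 then 1 else M * C) := by
    intro m
    cases m with
    | zero => simp [Rm]
    | succ m =>
      rw [if_neg (Nat.succ_ne_zero m)]
      have h1 : (Rm e M κ (m + 1)).card ≤ M * ((Rm e M κ (m + 1)).image (fun r => r / M)).card := by
        refine Finset.card_le_mul_card_image _ M fun a _ => ?_
        have h2 : (Rm e M κ (m + 1)).filter (fun r => r / M = a) ⊆ Finset.Ico (a * M) (a * M + M) := by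
          intro r hr
          rw [Finset.mem_filter] at hr
          rw [Finset.mem_Ico]
          have h3 := Nat.div_add_mod r M
          have h4 := Nat.mod_lt r (show 0 < M by omega)
          rw [hr.2] at h3
          have h5 : M * a = a * M := mul_comm _ _
          omega
        have h3 := Finset.card_le_card h2
        rw [Nat.card_Ico] at h3
        omega
      have h2 : (((Rm e M κ (m + 1)).image (fun r => r / M)).card : ℝ) ≤ C := by
        refine hcount (M ^ m) (Nat.pow_pos (by omega)) _ fun r hr => ?_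
        obtain ⟨r', hr', rfl⟩ := Finset.mem_image.1 hr
        change r' ∈ (Finset.range (M ^ (m + 1))).filter (fun r => ¬ GG e M κ m (r / M)) at hr'
        rw [Finset.mem_filter, Finset.mem_range] at hr'
        refine ⟨?_, ?_⟩
        · rw [Nat.div_lt_iff_lt_mul (by omega), ← pow_succ]
          exact hr'.1
        · have h3 := hr'.2
          unfold GG at h3
          rw [not_le] at h3
          exact h3
      have h3 : ((Rm e M κ (m + 1)).card : ℝ) ≤ M * (((Rm e M κ (m + 1)).image (fun r => r / M)).card : ℝ) := by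
        exact_mod_cast h1
      exact h3.trans (mul_le_mul_of_nonneg_left h2 (Nat.cast_nonneg _))
  have h1 : ((PP48 e M κ m₂).card : ℝ) ≤ ∑ m ∈ Finset.range (m₂ + 1), ((Rm e M κ m).card : ℝ) := by
    have h2 : (PP48 e M κ m₂).card ≤ ∑ m ∈ Finset.range (m₂ + 1), (Rm e M κ m).card :=
      (Finset.card_biUnion_le).trans (Finset.sum_le_sum fun m _ => Finset.card_image_le)
    exact_mod_cast h2
  refine h1.trans ((Finset.sum_le_sum fun m _ => hR m).trans ?_)
  rw [Finset.sum_range_succ']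
  have h2 : ∀ m ∈ Finset.range m₂, (if m + 1 = 0 then (1 : ℝ) else M * C) = M * C := fun m _ =>
    if_neg (Nat.succ_ne_zero m)
  rw [Finset.sum_congr rfl h2, Finset.sum_const, Finset.card_range, nsmul_eq_mul, if_pos rfl]
  linarith

/-- the fibres are arcs -/
theorem fibre_eq {M : ℕ} (hM : 1 ≤ M) (S : Finset (ℤ × ℤ)) (i : ℕ × ℕ) :
    S.filter (fun k => (lev e M κ m₂ k, rr M k (lev e M κ m₂ k)) = i) = ∅ ∨
    (S.filter (fun k => (lev e M κ m₂ k, rr M k (lev e M κ m₂ k)) = i) = arc 0 S (M ^ i.1) i.2 ∧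
      ∃ k ∈ S, i = (lev e M κ m₂ k, rr M k (lev e M κ m₂ k))) := by
  classical
  rcases (S.filter (fun k => (lev e M κ m₂ k, rr M k (lev e M κ m₂ k)) = i)).eq_empty_or_nonempty with h | ⟨k₀, hk₀⟩
  · exact Or.inl h
  · right
    rw [Finset.mem_filter] at hk₀
    obtain ⟨hk₀, rfl⟩ := hk₀
    refine ⟨?_, k₀, hk₀, rfl⟩
    ext k
    rw [Finset.mem_filter, mem_arc48]
    refine and_congr_right fun hk => ⟨fun h => ?_, fun h => ?_⟩
    · rw [Prod.mk.injEq] at h
      obtain ⟨h1, h2⟩ := h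
      rw [h1] at h2
      exact h2
    · have h1 : rr M k (lev e M κ m₂ k₀) = rr M k₀ (lev e M κ m₂ k₀) := h
      have h2 := lev_eq e κ m₂ hM h1.symm
      rw [h2, h1]

end

end Pool.Agent.Helper48.RT
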