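import Pool.Agent.Helper48.RT.E2b

/-!
# Project RT, block E2: the cone, from the good sectors
-/

open MeasureTheory Real Set Filter Topology

set_option autoImplicit false

namespace Pool.Agent.Helper48.RT

open Pool.Agent.Helper22.AE
open Pool.Agent.Helper92.GC (dt tp Tq uu tt arc dd sqa m6)
open Pool.Agent.Helper92.DT (m12 IsMul12)
open Pool.Agent.Helper60.LT (Fr Tf xf yf df vf fr ac co Cut BB PP)
open Pool.Agent.Helper60.RT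

theorem RI_empty48 (e : Fr) (B X : ℝ) : RI e B X ∅ = 0 := by
  unfold RI mr m12 tp
  simp

/-- the parameters of a good arc -/
theorem par_of_good {e : Fr} {Λ : ℝ} (hΛ : 1 ≤ Λ) (hlip : ∀ t t' : ℝ, |t| ≤ 7 → |t'| ≤ 7 →
    |l1 e t * l2 e t - l1 e t' * l2 e t'| ≤ Λ * |t - t'|) {M : ℕ} (hM : 2 ≤ M) {ε₀ X : ℝ} (hε₀ : 0 < ε₀)
    {N m₂ m r : ℕ} (hX : 1 ≤ X) (hN : 1 ≤ N) (hlo : X ^ (1 / 10 : ℝ) ≤ N)
    (hhi : (N : ℝ) ≤ X ^ (4 / 9 + 1 / 1000 : ℝ)) (hm : m ≤ m₂) (hk1 : (M : ℝ) ^ (4 * m₂) ≤ X * N)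
    (hk2 : X * N < (M : ℝ) ^ (4 * m₂ + 4)) (hcone : ∀ k ∈ cn N, |tt 0 k| ≤ 1)
    (hG : GG e M ((12 * Λ + 2) * (X * N) ^ ε₀) m r) :
    Par e M ε₀ X (|l1 e (ctr (M ^ m) r) * l2 e (ctr (M ^ m) r)| / 2) N m m₂ r := by
  have hN' : (1 : ℝ) ≤ N := by exact_mod_cast hN
  have hK : 1 ≤ X * N := by nlinarith
  have hKe : 1 ≤ (X * N) ^ ε₀ := Real.one_le_rpow hK hε₀.le
  have hMm : (0 : ℝ) < ((M ^ m : ℕ) : ℝ) := by
    have : 0 < M ^ m := Nat.pow_pos (by omega)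
    exact_mod_cast this
  have hMcast : ((M ^ m : ℕ) : ℝ) = (M : ℝ) ^ m := by push_cast; rfl
  unfold GG at hG
  obtain ⟨g, hg⟩ : ∃ g, g = |l1 e (ctr (M ^ m) r) * l2 e (ctr (M ^ m) r)| := ⟨_, rfl⟩
  rw [← hg] at hG ⊢
  have hκ : (12 * Λ + 2) * (X * N) ^ ε₀ ≤ g * ((M ^ m : ℕ) : ℝ) := hG
  have h12 : 12 * Λ ≤ g * ((M ^ m : ℕ) : ℝ) := by
    refine le_trans ?_ hκ
    nlinarith
  have h2 : 2 * (X * N) ^ ε₀ ≤ g * ((M ^ m : ℕ) : ℝ) := by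
    refine le_trans ?_ hκ
    nlinarith
  have hg0 : 0 < g := by
    by_contra h
    rw [not_lt] at h
    have : g * ((M ^ m : ℕ) : ℝ) ≤ 0 := mul_nonpos_of_nonpos_of_nonneg h hMm.le
    linarith
  refine ⟨hX, hN, hlo, hhi, hm, hk1, hk2, by positivity, fun k hk => ?_, ?_⟩
  · rw [mem_arc48] at hk
    have ht := hcone k hk.1
    obtain ⟨hn, -⟩ := near48 (Nat.pow_pos (by omega)) ht hk.2
    have h6 : 6 / ((M ^ m : ℕ) : ℝ) ≤ 6 := by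
      rw [div_le_iff₀ hMm]
      have h7 : (1 : ℝ) ≤ ((M ^ m : ℕ) : ℝ) := by
        have : 1 ≤ M ^ m := Nat.pow_pos (by omega)
        exact_mod_cast this
      linarith
    have hc7 : |ctr (M ^ m) r| ≤ 7 := by
      have h8 : |ctr (M ^ m) r| ≤ |tt 0 k| + |tt 0 k - ctr (M ^ m) r| := by
        have h9 := abs_sub_abs_le_abs_sub (ctr (M ^ m) r) (tt 0 k)
        rw [abs_sub_comm] at h9
        linarith
      linarith
    have h10 := hlip (tt 0 k) (ctr (M ^ m) r) (by linarith) hc7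
    have h11 : Λ * |tt 0 k - ctr (M ^ m) r| ≤ g / 2 := by
      have h13 : Λ * |tt 0 k - ctr (M ^ m) r| ≤ Λ * (6 / ((M ^ m : ℕ) : ℝ)) :=
        mul_le_mul_of_nonneg_left hn (by linarith)
      refine h13.trans ?_
      rw [mul_div_assoc', div_le_iff₀ hMm]
      linarith
    have h14 := abs_sub_abs_le_abs_sub (l1 e (tt 0 k) * l2 e (tt 0 k)) (l1 e (ctr (M ^ m) r) * l2 e (ctr (M ^ m) r))
    have h15 := abs_sub_abs_le_abs_sub (l1 e (ctr (M ^ m) r) * l2 e (ctr (M ^ m) r)) (l1 e (tt 0 k) * l2 e (tt 0 k))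
    rw [abs_sub_comm] at h15
    rw [← hg] at h14 h15
    constructor
    · linarith
    · linarith
  · rw [← hMcast]
    linarith

theorem cone_bd_of {e : Fr} (he : 0 < df e) {η B : ℝ} (hη : 0 < η)
    (hfib : ∀ (X : ℝ) (S : Finset (ℤ × ℤ)) (g : ℤ × ℤ → ℕ × ℕ) (P : Finset (ℕ × ℕ)), (∀ k ∈ S, g k ∈ P) →
      RI e B X S ≤ ENNReal.ofReal ((P.card : ℝ) ^ 11) * ∑ i ∈ P, RI e B X (S.filter (fun k => g k = i)))
    (hsec : ∀ η : ℝ, 0 < η → ∃ C : ℝ, 1 ≤ C ∧ ∀ (X : ℝ) (N : ℕ) (W D τ : ℝ) (S : Finset (ℤ × ℤ)), 1 ≤ X → 1 ≤ N →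
      (N : ℝ) ≤ X → 0 ≤ W → W ≤ 2 → 1 ≤ D → S ⊆ cn N → (∀ k ∈ S, |tt 0 k - τ| ≤ W) → (∀ k ∈ S, D * (Int.gcd k.1 k.2 : ℝ) ≤ k.1) →
        RI e B X S ≤ ENNReal.ofReal (C * X ^ (1 + η) * (N ^ 2 * W + N / D) ^ 7 * (N ^ 2 * W + (N / D) ^ 2) ^ 2 * (1 + N ^ 3 / X)))
    (hnum : ∀ b : ℝ, 1 ≤ b → ∃ C : ℝ, 1 ≤ C ∧ ∀ (X N w : ℝ), 1 ≤ X → 1 ≤ N → N ≤ X ^ (4 / 9 + 1 / 1000 : ℝ) →
      1 ≤ b * (w ^ 4 * (X * N)) → w ^ 4 * (X * N) ≤ b → 0 < w → w ≤ b →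
        X * ((N ^ 2 * w + N) ^ 7 * (N ^ 2 * w + N ^ 2) ^ 2 * (1 + N ^ 3 / X)) ≤ C * FR X N)
    (hcone : ∀ N : ℕ, 1 ≤ N → ∀ k ∈ cn N, (N : ℝ) ≤ k.1 ∧ (k.1 : ℝ) < 2 * N ∧ |tt 0 k| ≤ 1)
    (hl : ∀ η ε₀ : ℝ, 0 < η → 0 < ε₀ → ∃ (M : ℕ) (C : ℝ), 2 ≤ M ∧ 1 ≤ C ∧
      ∀ (X σ : ℝ) (N m₀ m₂ r₀ : ℕ), Par e M ε₀ X σ N m₀ m₂ r₀ → RI e B X (arc 0 (cn N) (M ^ m₀) r₀) ≤ ENNReal.ofReal (C * X ^ η * FR X N)) :
    ∃ C : ℝ, 1 ≤ C ∧ ∀ (X : ℝ) (N : ℕ), 1 ≤ X → 1 ≤ N → X ^ (1 / 10 : ℝ) ≤ N → (N : ℝ) ≤ X ^ (4 / 9 + 1 / 1000 : ℝ) →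
      RI e B X (cn N) ≤ ENNReal.ofReal (C * X ^ η * FR X N) := by
  classical
  obtain ⟨Λ, hΛ, hlip⟩ := lip_g e
  obtain ⟨Cb, hCb, hbad⟩ := count_bad he
  obtain ⟨ε₀, hε₀e⟩ : ∃ ε₀ : ℝ, ε₀ = η / 96 := ⟨_, rfl⟩
  have hε₀ : 0 < ε₀ := by rw [hε₀e]; positivity
  obtain ⟨M, Cl, hM, hCl, hgood⟩ := hl (η / 2) ε₀ (by positivity) hε₀
  obtain ⟨Cs, hCs, hs⟩ := hsec (η / 2) (by positivity)
  have hM' : (2 : ℝ) ≤ M := by exact_mod_cast hM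
  have hM4 : (1 : ℝ) ≤ (M : ℝ) ^ 4 := one_le_pow₀ (by linarith)
  obtain ⟨Cn, hCn, hn⟩ := hnum (12 ^ 4 * (M : ℝ) ^ 4) (by nlinarith)
  obtain ⟨C1, hC1⟩ : ∃ C1 : ℝ, C1 = 12 * Λ + 2 := ⟨_, rfl⟩
  have hC1' : 1 ≤ C1 := by rw [hC1]; linarith
  obtain ⟨C2, hC2⟩ : ∃ C2 : ℝ, C2 = 1 + M * Cb * C1 / ε₀ := ⟨_, rfl⟩
  have hC2' : 1 ≤ C2 := by
    rw [hC2]
    have : 0 ≤ M * Cb * C1 / ε₀ := by positivity
    linarith
  obtain ⟨Cm, hCm⟩ : ∃ Cm : ℝ, Cm = Cl + Cs * Cn := ⟨_, rfl⟩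
  have hCm' : 1 ≤ Cm := by
    rw [hCm]
    have : 0 ≤ Cs * Cn := by positivity
    linarith
  refine ⟨C2 ^ 12 * Cm, ?_, fun X N hX hN hlo hhi => ?_⟩
  · have := one_le_pow₀ hC2' (n := 12)
    nlinarith
  have hN' : (1 : ℝ) ≤ N := by exact_mod_cast hN
  have hX0 : 0 < X := by linarith
  have hK : 1 ≤ X * N := by nlinarith
  have hNX : (N : ℝ) ≤ X := by
    refine hhi.trans ?_
    calc X ^ (4 / 9 + 1 / 1000 : ℝ) ≤ X ^ (1 : ℝ) := Real.rpow_le_rpow_of_exponent_le hX (by norm_num)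
      _ = X := Real.rpow_one X
  have hFR : 0 ≤ FR X N := by
    unfold FR
    positivity
  obtain ⟨K, hKe⟩ : ∃ K, K = X * N := ⟨_, rfl⟩
  have hKe1 : 1 ≤ K ^ ε₀ := Real.one_le_rpow (by rw [hKe]; exact hK) hε₀.le
  obtain ⟨m₂, hm1, hm2⟩ := exists_nat_pow_near (x := K) (y := (M : ℝ) ^ 4) (by rw [hKe]; exact hK)
    (by nlinarith [pow_le_pow_left₀ (by norm_num : (0 : ℝ) ≤ 2) hM' 4])
  rw [← pow_mul] at hm1 hm2
  have hk1 : (M : ℝ) ^ (4 * m₂) ≤ X * N := by rw [← hKe]; exact hm1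
  have hk2 : X * N < (M : ℝ) ^ (4 * m₂ + 4) := by
    rw [← hKe]
    have e1 : 4 * (m₂ + 1) = 4 * m₂ + 4 := by ring
    rw [← e1]
    exact hm2
  have hc1 : ∀ k ∈ cn N, |tt 0 k| ≤ 1 := fun k hk => (hcone N hN k hk).2.2
  obtain ⟨κ, hκ⟩ : ∃ κ : ℝ, κ = (12 * Λ + 2) * (X * N) ^ ε₀ := ⟨_, rfl⟩
  have hκ1 : κ = C1 * K ^ ε₀ := by rw [hκ, hC1, hKe]
  have hκ0 : 1 ≤ κ := by rw [hκ1]; nlinarith
  obtain ⟨g, hg⟩ : ∃ g : ℤ × ℤ → ℕ × ℕ, g = fun k => (lev e M κ m₂ k, rr M k (lev e M κ m₂ k)) := ⟨_, rfl⟩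
  have hM1 : 1 ≤ M := by omega
  obtain ⟨P, hP⟩ : ∃ P, P = PP48 e M κ m₂ := ⟨_, rfl⟩
  have h1 := hfib X (cn N) g P (fun k hk => by
    rw [hg, hP]
    exact mem_PP e κ m₂ hM1 (hc1 k hk))
  -- one fibre
  obtain ⟨F, hF⟩ : ∃ F : ℝ, F = Cm * X ^ (η / 2) * FR X N := ⟨_, rfl⟩
  have hXe : 1 ≤ X ^ (η / 2) := Real.one_le_rpow hX (by positivity)
  have hF0 : 0 ≤ F := by rw [hF]; positivity
  have hone : ∀ i ∈ P, RI e B X ((cn N).filter (fun k => g k = i)) ≤ ENNReal.ofReal F := by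
    intro i _
    rw [hg]
    rcases fibre_eq e κ m₂ hM1 (cn N) i with h | ⟨h, k, hk, hi⟩
    · rw [h, RI_empty48]
      exact bot_le
    rw [h]
    by_cases hG : GG e M κ i.1 i.2
    · have hlev : i.1 ≤ m₂ := by rw [hi]; exact lev_le e M κ m₂ k
      rw [hκ] at hG
      refine (hgood X _ N i.1 m₂ i.2 (par_of_good hΛ hlip hM hε₀ hX hN hlo hhi hlev hk1 hk2 hc1 hG)).trans ?_
      refine ENNReal.ofReal_le_ofReal ?_
      rw [hF, hCm]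
      have : 0 ≤ Cs * Cn * (X ^ (η / 2) * FR X N) := by positivity
      nlinarith
    · have hlev : i.1 = m₂ := by
        rcases lev_spec e M κ m₂ k with h2 | h2
        · rw [hi]
          exact h2
        · exfalso
          apply hG
          rw [hi]
          exact h2
      obtain ⟨w, hw⟩ : ∃ w : ℝ, w = 12 / (M : ℝ) ^ m₂ := ⟨_, rfl⟩
      have hMm : (0 : ℝ) < (M : ℝ) ^ m₂ := by positivity
      have hMm1 : (1 : ℝ) ≤ (M : ℝ) ^ m₂ := one_le_pow₀ (by linarith)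
      have hw0 : 0 < w := by rw [hw]; positivity
      have hw4 : w ^ 4 * (X * N) = 12 ^ 4 * (X * N) / (M : ℝ) ^ (4 * m₂) := by
        rw [hw, div_pow, ← pow_mul, mul_comm m₂ 4]
        ring
      have hM4m : (0 : ℝ) < (M : ℝ) ^ (4 * m₂) := by positivity
      have hwlo : 1 ≤ 12 ^ 4 * (M : ℝ) ^ 4 * (w ^ 4 * (X * N)) := by
        have h3 : 1 ≤ w ^ 4 * (X * N) := by
          rw [hw4, le_div_iff₀ hM4m]
          linarith
        have h4 : 1 ≤ 12 ^ 4 * (M : ℝ) ^ 4 := by linarith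
        exact one_le_mul_of_one_le_of_one_le h4 h3
      have hwhi : w ^ 4 * (X * N) ≤ 12 ^ 4 * (M : ℝ) ^ 4 := by
        rw [hw4, div_le_iff₀ hM4m]
        have e2 : (M : ℝ) ^ (4 * m₂ + 4) = (M : ℝ) ^ 4 * (M : ℝ) ^ (4 * m₂) := by rw [pow_add]; ring
        rw [e2] at hk2
        have h3 := mul_le_mul_of_nonneg_left hk2.le (by norm_num : (0 : ℝ) ≤ 12 ^ 4)
        rw [mul_assoc]
        exact h3
      have hwb : w ≤ 12 ^ 4 * (M : ℝ) ^ 4 := by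
        have h3 : w ≤ 12 := by
          rw [hw, div_le_iff₀ hMm]
          linarith
        linarith
      have h3 := hn X N w hX hN' hhi hwlo hwhi hw0 hwb
      -- the sector
      have hnear : ∀ k ∈ arc 0 (cn N) (M ^ i.1) i.2, |tt 0 k - ctr (M ^ m₂) i.2| ≤ w := by
        intro k hk
        rw [hlev, mem_arc48] at hk
        have h4 := (near48 (Nat.pow_pos (by omega)) (hc1 k hk.1) hk.2).1
        refine h4.trans ?_
        rw [hw]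
        push_cast
        gcongr
        norm_num
      obtain ⟨W, τ, hW0, hW2, hWw, hWn⟩ : ∃ W τ : ℝ, 0 ≤ W ∧ W ≤ 2 ∧ W ≤ w ∧
          ∀ k ∈ arc 0 (cn N) (M ^ i.1) i.2, |tt 0 k - τ| ≤ W := by
        rcases le_total w 2 with h4 | h4
        · exact ⟨w, ctr (M ^ m₂) i.2, hw0.le, h4, le_rfl, hnear⟩
        · refine ⟨2, 0, by norm_num, le_rfl, h4, fun k hk => ?_⟩
          rw [sub_zero]
          exact (hc1 k (mem_arc48.1 hk).1).trans (by norm_num)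
      have h5 := hs X N W 1 τ (arc 0 (cn N) (M ^ i.1) i.2) hX hN hNX hW0 hW2 le_rfl
        (fun k hk => (mem_arc48.1 hk).1) hWn (fun k hk => by
          have h6 := (hcone N hN k (mem_arc48.1 hk).1).1
          rw [one_mul]
          have h7 : 0 < k.1 := by
            have : (0 : ℝ) < (k.1 : ℝ) := by linarith
            exact_mod_cast this
          have h8 : (Int.gcd k.1 k.2 : ℤ) ≤ k.1 := Int.le_of_dvd h7 (Int.gcd_dvd_left k.1 k.2)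
          exact_mod_cast h8)
      refine h5.trans (ENNReal.ofReal_le_ofReal ?_)
      rw [div_one, Real.rpow_add hX0, Real.rpow_one]
      have hNN : (0 : ℝ) ≤ N := by linarith
      have h6 : (N ^ 2 * W + N : ℝ) ^ 7 * (N ^ 2 * W + N ^ 2) ^ 2 * (1 + N ^ 3 / X) ≤
          (N ^ 2 * w + N) ^ 7 * (N ^ 2 * w + N ^ 2) ^ 2 * (1 + N ^ 3 / X) := by
        gcongr
      have h7 : Cs * (X * X ^ (η / 2)) * (N ^ 2 * W + N : ℝ) ^ 7 * (N ^ 2 * W + N ^ 2) ^ 2 * (1 + N ^ 3 / X) =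
          Cs * X ^ (η / 2) * (X * ((N ^ 2 * W + N : ℝ) ^ 7 * (N ^ 2 * W + N ^ 2) ^ 2 * (1 + N ^ 3 / X))) := by ring
      rw [h7]
      have h8 : Cs * X ^ (η / 2) * (X * ((N ^ 2 * W + N : ℝ) ^ 7 * (N ^ 2 * W + N ^ 2) ^ 2 * (1 + N ^ 3 / X))) ≤
          Cs * X ^ (η / 2) * (Cn * FR X N) := by
        refine mul_le_mul_of_nonneg_left ((mul_le_mul_of_nonneg_left h6 hX0.le).trans h3) (by positivity)
      refine h8.trans ?_
      rw [hF, hCm]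
      have h9 : 0 ≤ Cl * (X ^ (η / 2) * FR X N) := by positivity
      nlinarith
  -- the number of pieces
  have hcard : (P.card : ℝ) ≤ C2 * X ^ (η / 24) := by
    have h2 : (P.card : ℝ) ≤ 1 + m₂ * (M * (Cb * κ)) := by
      rw [hP]
      refine card_PP e κ m₂ hM1 (by positivity) fun N₁ hN₁ S hS => ?_
      refine le_trans ?_ (hbad N₁ κ hN₁ hκ0)
      have : S ⊆ (Finset.range N₁).filter (fun r => |l1 e (ctr N₁ r) * l2 e (ctr N₁ r)| * N₁ < κ) := by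
        intro r hr
        rw [Finset.mem_filter, Finset.mem_range]
        exact hS r hr
      exact_mod_cast Finset.card_le_card this
    have h3 : (m₂ : ℝ) ≤ K ^ ε₀ / ε₀ := by
      have h4 : (m₂ : ℝ) ≤ Real.log K := by
        rw [Real.le_log_iff_exp_le (by rw [hKe]; linarith)]
        have h5 : Real.exp (m₂ : ℝ) = Real.exp 1 ^ m₂ := by
          rw [← Real.exp_nat_mul, mul_one]
        rw [h5]
        refine le_trans ?_ hm1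
        rw [pow_mul]
        refine pow_le_pow_left₀ (Real.exp_pos 1).le ?_ m₂
        have h6 := Real.exp_one_lt_d9
        have h7 : (16 : ℝ) ≤ (M : ℝ) ^ 4 := by
          have := pow_le_pow_left₀ (by norm_num : (0 : ℝ) ≤ 2) hM' 4
          norm_num at this
          exact this
        linarith
      exact h4.trans (Real.log_le_rpow_div (by rw [hKe]; linarith) hε₀)
    have h4 : (P.card : ℝ) ≤ C2 * (K ^ ε₀ * K ^ ε₀) := by
      refine h2.trans ?_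
      have h5 : (m₂ : ℝ) * (M * (Cb * κ)) ≤ K ^ ε₀ / ε₀ * (M * (Cb * κ)) :=
        mul_le_mul_of_nonneg_right h3 (by positivity)
      rw [hC2, hκ1] at *
      have h6 : K ^ ε₀ / ε₀ * (M * (Cb * (C1 * K ^ ε₀))) = M * Cb * C1 / ε₀ * (K ^ ε₀ * K ^ ε₀) := by ring
      rw [h6] at h5
      have h7 : 1 ≤ K ^ ε₀ * K ^ ε₀ := by nlinarith
      nlinarith
    refine h4.trans (mul_le_mul_of_nonneg_left ?_ (by linarith))
    have hKX : K ≤ X ^ (2 : ℝ) := by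
      rw [hKe, Real.rpow_two]
      nlinarith
    have hK0 : 0 ≤ K := by rw [hKe]; linarith
    have h5 : K ^ ε₀ ≤ X ^ (2 * ε₀) := by
      rw [Real.rpow_mul hX0.le]
      exact Real.rpow_le_rpow hK0 hKX hε₀.le
    have h6 : X ^ (η / 24) = X ^ (2 * ε₀) * X ^ (2 * ε₀) := by
      rw [← Real.rpow_add hX0, hε₀e]
      congr 1
      ring
    rw [h6]
    exact mul_le_mul h5 h5 (by positivity) (by positivity)
  -- conclusion
  refine h1.trans ?_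
  have h2 : ∑ i ∈ P, RI e B X ((cn N).filter (fun k => g k = i)) ≤ (P.card : ENNReal) * ENNReal.ofReal F := by
    refine (Finset.sum_le_sum hone).trans ?_
    rw [Finset.sum_const, nsmul_eq_mul]
  refine (mul_le_mul_right h2 _).trans ?_
  have h3 : (P.card : ENNReal) = ENNReal.ofReal (P.card : ℝ) := (ENNReal.ofReal_natCast _).symm
  rw [h3, ← ENNReal.ofReal_mul (by positivity), ← ENNReal.ofReal_mul (by positivity)]
  refine ENNReal.ofReal_le_ofReal ?_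
  have h4 : (P.card : ℝ) ^ 11 * (P.card * F) = (P.card : ℝ) ^ 12 * F := by ring
  rw [h4]
  have h5 : (P.card : ℝ) ^ 12 ≤ (C2 * X ^ (η / 24)) ^ 12 := pow_le_pow_left₀ (Nat.cast_nonneg _) hcard 12
  refine (mul_le_mul_of_nonneg_right h5 hF0).trans ?_
  rw [hF, mul_pow]
  have h6 : (X ^ (η / 24)) ^ 12 = X ^ (η / 2) := by
    rw [← Real.rpow_natCast, ← Real.rpow_mul hX0.le]
    congr 1
    push_cast
    ring
  have h7 : X ^ η = X ^ (η / 2) * X ^ (η / 2) := by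
    rw [← Real.rpow_add hX0]
    congr 1
    ring
  rw [h6, h7]
  refine le_of_eq ?_
  ring

end Pool.Agent.Helper48.RT
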